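import Pool.Agent.N299.PX.Stm

/-!
# Weakly purely infinite algebras are nowhere scattered (by helper769)
-/

set_option autoImplicit false

open Filter Topology

noncomputable section

namespace Pool.Agent.N769.PX

open Pool.Agent.N299.PX Pool.Agent.N299.PX.Pub Pool.Agent.N299.ND.Pub

section

variable {H : Type} [NormedAddCommGroup H] [InnerProductSpace ℂ H] [CompleteSpace H]

/-- the map `v ↦ ⟪ξ, v⟫ ξ` -/
def rk (ξ : H) : H →L[ℂ] H := (innerSL ℂ ξ).smulRight ξ

lemma rk_apply (ξ v : H) : rk ξ v = inner ℂ ξ v • ξ := rfl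

lemma isCompact_rk (ξ : H) : IsCompactOperator (rk ξ) := by
  have h1 : IsCompactOperator (innerSL ℂ ξ) := by
    have h := (isCompactOperator_id (E := ℂ)).comp_clm (innerSL ℂ ξ)
    exact h
  have h2 : Continuous (fun c : ℂ => c • ξ) := by fun_prop
  exact h1.continuous_comp h2

end

theorem t_NS (hRK : S_RK) : S_NS := by
  intro A _ hWP L hL hid H _ _ _ _ π hπ
  obtain ⟨n, hn, hW⟩ := hWP
  obtain ⟨ξ0, hξ0⟩ := exists_ne (0 : H)
  obtain ⟨ξ, hξ⟩ : ∃ ξ : H, ‖ξ‖ = 1 := ⟨_, norm_smul_inv_norm (𝕜 := ℂ) hξ0⟩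
  have hξ1 : inner ℂ ξ ξ = (1 : ℂ) := inner_self_eq_one_of_norm_eq_one hξ
  obtain ⟨x, hx⟩ := (hπ (rk ξ)).2 (isCompact_rk ξ)
  have hx0 : π x ξ = ξ := by rw [hx, rk_apply, hξ1, one_smul]
  -- continuity
  have hF : Continuous (fun u : L => inner ℂ ξ (π u ξ)) := by
    let _ : NonUnitalCStarAlgebra L :=
      NonUnitalStarSubalgebra.nonUnitalCStarAlgebra L (h_closed := hL)
    have hc : Continuous π := AddMonoidHomClass.continuous_of_bound π 1 fun u => by
      rw [one_mul]
      exact NonUnitalStarAlgHom.norm_apply_le π u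
    exact continuous_const.inner (hc.clm_apply continuous_const)
  -- the elements
  have hxr : ∀ r : A, (x : A) * r ∈ L := fun r => (hid x x.2 r).1
  let xr : A → L := fun r => ⟨(x : A) * r, hxr r⟩
  let ζ : A → ℂ := fun r => inner ℂ ξ (π (xr r) ξ)
  let u : A → A → L := fun r r' => star (x * xr r) * (x * xr r')
  let a : L := star (x * x) * (x * x)
  have hu : ∀ r r' : A, ((u r r' : L) : A) = star r * (a : A) * r' := by
    intro r r'
    show star ((x : A) * ((x : A) * r)) * ((x : A) * ((x : A) * r')) =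
      star r * (star ((x : A) * x) * ((x : A) * x)) * r'
    simp only [star_mul, mul_assoc]
  have key : ∀ v w : L, inner ℂ ξ (π (star v * w) ξ) = inner ℂ (π v ξ) (π w ξ) := by
    intro v w
    rw [map_mul, map_star]
    exact ContinuousLinearMap.adjoint_inner_right _ _ _
  have hxx : ∀ r : A, π (x * xr r) ξ = ζ r • ξ := by
    intro r
    rw [map_mul]
    show π x (π (xr r) ξ) = ζ r • ξ
    rw [hx, rk_apply]
  have hFu : ∀ r r' : A, inner ℂ ξ (π (u r r') ξ) = star (ζ r) * ζ r' := by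
    intro r r'
    rw [key, hxx, hxx, inner_smul_left, inner_smul_right, hξ1, mul_one]
    rfl
  have hFa : inner ℂ ξ (π a ξ) = (1 : ℂ) := by
    have h1 : π (x * x) ξ = ξ := by
      rw [map_mul]
      show π x (π x ξ) = ξ
      rw [hx0, hx0]
    rw [key, h1, hξ1]
  have ha0 : (a : A) ≠ 0 := by
    intro h
    have h1 : a = 0 := Subtype.ext h
    rw [h1, map_zero] at hFa
    simp at hFa
  obtain ⟨X, hX⟩ := hW (a : A) ⟨(x : A) * x, rfl⟩ ha0
  refine hRK n hn (fun k => Matrix.of fun l p => ζ (X k (0, l) p)) ?_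
  refine tendsto_pi_nhds.2 fun p => tendsto_pi_nhds.2 fun p' => ?_
  have hXq := tendsto_pi_nhds.1 (tendsto_pi_nhds.1 hX p) p'
  have hsum : ∀ k, (Matrix.conjTranspose (X k) *
      Matrix.diagonal (fun p : Fin 2 × Fin n => if p.1 = 0 then (a : A) else 0) * X k) p p' =
      ((∑ l : Fin n, u (X k (0, l) p) (X k (0, l) p') : L) : A) := by
    intro k
    rw [AddSubmonoidClass.coe_finsetSum]
    rw [Matrix.mul_apply, Fintype.sum_prod_type, Fin.sum_univ_two]
    simp only [Matrix.mul_diagonal, Matrix.conjTranspose_apply, hu]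
    simp
  have hlim : Tendsto (fun k => ∑ l : Fin n, u (X k (0, l) p) (X k (0, l) p')) atTop
      (𝓝 (if p = p' then a else 0)) := by
    rw [tendsto_subtype_rng]
    have h1 : ((if p = p' then a else 0 : L) : A) =
        (Matrix.diagonal (fun _ : Fin 2 × Fin n => (a : A))) p p' := by
      rw [Matrix.diagonal_apply]
      split_ifs
      · rfl
      · rfl
    rw [h1]
    exact hXq.congr hsum
  have h2 := (hF.tendsto _).comp hlim
  have h3 : inner ℂ ξ (π (if p = p' then a else 0) ξ) = (1 : Matrix (Fin 2 × Fin n) (Fin 2 × Fin n) ℂ) p p' := by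
    rw [Matrix.one_apply]
    split_ifs
    · exact hFa
    · rw [map_zero]
      simp
  rw [h3] at h2
  refine h2.congr fun k => ?_
  show inner ℂ ξ (π (∑ l : Fin n, u (X k (0, l) p) (X k (0, l) p')) ξ) = _
  rw [map_sum, ContinuousLinearMap.sum_apply, inner_sum, Matrix.mul_apply]
  refine Finset.sum_congr rfl fun l _ => ?_
  rw [hFu]
  rfl

end Pool.Agent.N769.PX
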